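import Pool.Agent.MP_5c28a4_al.H13S.Base

/-! Abelian normal subgroups of finite exponent. -/

set_option autoImplicit false

namespace Pool.Agent.MP_5c28a4_al.H89S.StrA

open scoped commutatorElement

namespace U2A

/-- the conclusion of `XU2` and of `XTow` -/
def C2 {N A : Type} [Group N] [AddCommGroup A] (ρ : Representation ℤ N A) (P : Subgroup N) :
    Prop :=
  ∃ (m : ℤ) (D : Subgroup N), m ≠ 0 ∧ D.Normal ∧ D.FiniteIndex ∧ Kill ρ m (⁅P, D⁆ : Subgroup N) 1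

variable {N A : Type} [Group N] [AddCommGroup A]

theorem kill_iff_le {ρ : Representation ℤ N A} {m : ℤ} {Y : Subgroup N} :
    Kill ρ m Y 1 ↔ Y ≤ kr ρ m := kill_one_iff

/-- reduction modulo a normal subgroup that acts trivially on a multiple -/
theorem redc (hR : XRed) (ρ : Representation ℤ N A) (Y : Subgroup N) [Y.Normal] {m : ℤ}
    (hm : m ≠ 0) (hY : Y ≤ kr ρ m) :
    ∃ (A' : Type) (_ : AddCommGroup A') (ρ' : Representation ℤ (N ⧸ Y) A'),
      (∀ u, Sat u ρ → Sat u ρ') ∧ ∀ P : Subgroup N, C2 ρ' (P.map (QuotientGroup.mk' Y)) → C2 ρ P := by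
  obtain ⟨A', _, ρ', h1, -, h2⟩ := hR N A ρ Y m 1 (kill_iff_le.2 hY)
  refine ⟨A', inferInstance, ρ', h1, ?_⟩
  rintro P ⟨m', D, h3, h4, h5, h6⟩
  refine ⟨m * m' ^ 1, D.comap (QuotientGroup.mk' Y), mul_ne_zero hm (pow_ne_zero _ h3),
    inferInstance, fi_comap _ (QuotientGroup.mk'_surjective Y) h5, h2 m' _ 1 (kill_mono h6 ?_)⟩
  have h7 : (⁅P, D.comap (QuotientGroup.mk' Y)⁆).map (QuotientGroup.mk' Y) ≤
      ⁅P.map (QuotientGroup.mk' Y), D⁆ := by
    rw [Subgroup.map_commutator]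
    exact Subgroup.commutator_mono le_rfl (Subgroup.map_comap_le _ _)
  exact h7

/-- generators are enough for a commutator modulo a normal subgroup -/
theorem comm_closure_le {S : Set N} {X W : Subgroup N} (hW : W.Normal)
    (h : ∀ s ∈ S, ∀ b ∈ X, ⁅s, b⁆ ∈ W) : ⁅Subgroup.closure S, X⁆ ≤ W := by
  rw [← map_mk_eq_bot, Subgroup.map_commutator, Subgroup.commutator_eq_bot_iff_le_centralizer,
    Subgroup.map_le_iff_le_comap, Subgroup.closure_le]
  intro s hs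
  refine Subgroup.mem_comap.2 (Subgroup.mem_centralizer_iff.2 ?_)
  rintro _ ⟨b, hb, rfl⟩
  have h1 : QuotientGroup.mk' W ⁅s, b⁆ = 1 := (QuotientGroup.eq_one_iff _).2 (h s hs b hb)
  rw [map_commutatorElement, commutatorElement_eq_one_iff_mul_comm] at h1
  exact h1.symm

theorem mem_pw_cm {X : Subgroup N} (hX : Cm X X) {n : ℕ} {x : N} (hx : x ∈ pw X n) :
    ∃ y ∈ X, x = y ^ n := by
  induction hx using Subgroup.closure_induction with
  | mem x hx => exact hx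
  | one => exact ⟨1, X.one_mem, (one_pow n).symm⟩
  | mul x y _ _ hx hy =>
    obtain ⟨a, ha, rfl⟩ := hx
    obtain ⟨b, hb, rfl⟩ := hy
    exact ⟨a * b, X.mul_mem ha hb, (Commute.mul_pow (hX a ha b hb) n).symm⟩
  | inv x _ hx =>
    obtain ⟨a, ha, rfl⟩ := hx
    exact ⟨a⁻¹, X.inv_mem ha, (inv_pow a n).symm⟩

theorem cm_mono {X X' : Subgroup N} (h : X' ≤ X) (hX : Cm X X) : Cm X' X' :=
  fun a ha b hb => hX a (h ha) b (h hb)

theorem cm_map {N' : Type} [Group N'] (f : N →* N') {X : Subgroup N} (hX : Cm X X) :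
    Cm (X.map f) (X.map f) := by
  rintro _ ⟨a, ha, rfl⟩ _ ⟨b, hb, rfl⟩
  rw [← map_mul, ← map_mul, hX a ha b hb]

/-- prime exponent -/
theorem u0 (hB : BFin) (hU : SU) (hS : XSum) {q : ℕ} (hq : q.Prime) {u : FF →₀ ℤ} (hu : Good q u)
    (ρ : Representation ℤ N A) (X : Subgroup N) (hN : Group.FG N) (hs : Group.IsSolvable N)
    (hρ : Sat u ρ) (hX : X.Normal) (he : ∀ x ∈ X, x ^ q = 1) (hc : Cm X X) : C2 ρ X := by
  obtain ⟨m, n, L, h1, h2, h3⟩ := hU q u hq hu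
  have hm : m ≠ 0 := by
    rintro rfl
    exact h1 (dvd_zero _)
  refine ⟨m * (q : ℤ) ^ n, pw ⊤ L, mul_ne_zero hm (pow_ne_zero _ (by exact_mod_cast hq.ne_zero)),
    pw_normal inferInstance L, hB.pwFI N ⊤ L hs hN inferInstance h2, kill_iff_le.2 ?_⟩
  rw [Subgroup.commutator_comm]
  refine comm_closure_le (kr_normal _ _) ?_
  rintro _ ⟨z, -, rfl⟩ b hb
  have h4 : ⁅z ^ L, b⁆ ∈ X :=
    Subgroup.commutator_le_right ⊤ X (Subgroup.commutator_mem_commutator (Subgroup.mem_top _) hb)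
  refine hS.ord N A ρ _ q n m (he _ h4) (kill_mono (h3 N A ρ hρ X z hc he (nz_of_normal hX z)) ?_)
  rintro _ rfl
  exact ⟨b, hb, rfl⟩

/-- the step, when the powers are centralised by a subgroup of finite index -/
theorem step (hB : BFin) (hU : SU) (hS : XSum) (hC : XCom) {q : ℕ} (hq : q.Prime) {u : FF →₀ ℤ}
    (hu : Good q u) (ρ : Representation ℤ N A) (X D : Subgroup N) (hN : Group.FG N)
    (hs : Group.IsSolvable N) (hρ : Sat u ρ) (hX : X.Normal) (hc : Cm X X) (hD : D.Normal)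
    (hD' : D.FiniteIndex) (h : ⁅pw X q, D⁆ = ⊥) : C2 ρ X := by
  have h1 : ⁅X, D⁆ ≤ X := Subgroup.commutator_le_left _ _
  have h2 : ∀ x ∈ ⁅X, D⁆, x ^ q = 1 := fun x hx => Subgroup.mem_bot.1
    (hC.e1 N X D ⊥ q hX hD inferInstance
      ((Subgroup.commutator_mono h1 le_rfl).trans (cm_iff.1 hc).le)
      (fun y hy d hd => h.le (Subgroup.commutator_mem_commutator (pow_mem_pw hy q) hd)) x hx)
  obtain ⟨m, D', h3, h4, h5, h6⟩ :=
    u0 hB hU hS hq hu ρ ⁅X, D⁆ hN hs hρ inferInstance h2 (cm_mono h1 hc)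
  have h7 : ⁅X, D ⊓ D'⁆ ≤ ⁅X, D⁆ := Subgroup.commutator_mono le_rfl inf_le_left
  refine ⟨m, pw (D ⊓ D') q, h3, pw_normal inferInstance q,
    hB.pwFI N _ q hs hN inferInstance hq.pos, kill_iff_le.2 ?_⟩
  refine hC.fin N X (D ⊓ D') _ q hX inferInstance (kr_normal _ _)
    ((Subgroup.commutator_mono h7 inf_le_right).trans (kill_iff_le.1 h6)) fun x hx => ?_
  rw [h2 x (h7 hx)]
  exact Subgroup.one_mem _

theorem ind (hB : BFin) (hU : SU) (hR : XRed) (hS : XSum) (hC : XCom) (u : ℕ → FF →₀ ℤ)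
    (hu : ∀ p : ℕ, p.Prime → Good p (u p)) (e : ℕ) : 0 < e →
    ∀ (N A : Type) [Group N] [AddCommGroup A] (ρ : Representation ℤ N A) (X : Subgroup N),
      Group.FG N → Group.IsSolvable N → (∀ p : ℕ, p.Prime → Sat (u p) ρ) → X.Normal →
      (∀ x ∈ X, x ^ e = 1) → Cm X X → C2 ρ X := by
  induction e using induction_on_primes with
  | zero => exact fun h => absurd h (lt_irrefl 0)
  | one =>
    intro _ N A _ _ ρ X _ _ _ hX he _
    refine ⟨1, ⊤, one_ne_zero, inferInstance, inferInstance, kill_iff_le.2 fun x hx => ?_⟩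
    have h1 := he x (Subgroup.commutator_le_left X ⊤ hx)
    rw [pow_one] at h1
    rw [h1]
    exact Subgroup.one_mem _
  | prime_mul q e hq ih =>
    intro h0 N A _ _ ρ X hN hs hρ hX he hc
    have h1 := pw_normal hX q
    obtain ⟨m, D, h2, h3, h4, h5⟩ := ih (Nat.pos_of_mul_pos_left h0) N A ρ (pw X q) hN hs hρ h1
      (fun x hx => by
        obtain ⟨y, hy, rfl⟩ := mem_pw_cm hc hx
        rw [← pow_mul, he y hy]) (cm_mono (pw_le X q) hc)
    obtain ⟨A', _, ρ', h6, h7⟩ := redc hR ρ ⁅pw X q, D⁆ h2 (kill_iff_le.1 h5)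
    have h8 := QuotientGroup.mk'_surjective ⁅pw X q, D⁆
    refine h7 X (step hB hU hS hC hq (hu q hq) ρ' _ (D.map (QuotientGroup.mk' _))
      inferInstance inferInstance (h6 _ (hρ q hq)) (hX.map _ h8) (cm_map _ hc) (h3.map _ h8)
      (fi_map _ h8 h4) ?_)
    rw [← pw_map, ← Subgroup.map_commutator, map_mk_eq_bot]

end U2A

theorem u2 : BFin → SU → XRed → XSum → XCom → XU2 := by
  intro hB hU hR hS hC u hu N A _ _ ρ X hN hs hρ hX hb hc
  obtain ⟨e, h1, h2⟩ := hb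
  exact U2A.ind hB hU hR hS hC u hu e h1 N A ρ X hN hs hρ hX h2 hc

end Pool.Agent.MP_5c28a4_al.H89S.StrA
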