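import Pool.Agent.MP_5c28a4_al.H62S.Base

/-! Reduction of `SHaus` to the finiteness of monolithic quotients. -/

set_option autoImplicit false

namespace Pool.Agent.MP_5c28a4_al.H89S.HausA

namespace RRetA

section Maps

variable {Γ I I' I'' : Type} [Group Γ] [Fintype I] [Fintype I'] [Fintype I'']
  {γ : I → Γ} {γ' : I' → Γ} {γ'' : I'' → Γ}

/-- restriction of a map over the boundary maps to the relation modules -/
noncomputable def rv (f : (I → QQ Γ) →ₗ[QQ Γ] (I' → QQ Γ)) (hf : ∀ x, del γ' (f x) = del γ x) :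
    VV γ →ₗ[QQ Γ] VV γ' :=
  f.restrict fun x hx => (hf x).trans hx

/-- the induced map of tensor powers -/
noncomputable def tm (f : (I → QQ Γ) →ₗ[QQ Γ] (I' → QQ Γ)) (hf : ∀ x, del γ' (f x) = del γ x)
    (m : ℕ) : TT γ m →ₗ[ℤ] TT γ' m :=
  PiTensorProduct.map fun _ => (rv f hf).restrictScalars ℤ

theorem tm_tprod (f : (I → QQ Γ) →ₗ[QQ Γ] (I' → QQ Γ)) (hf : ∀ x, del γ' (f x) = del γ x)
    {m : ℕ} (v : Fin m → VV γ) :
    tm f hf m (PiTensorProduct.tprod ℤ v) = PiTensorProduct.tprod ℤ fun l => rv f hf (v l) :=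
  PiTensorProduct.map_tprod _ _

theorem act_tprod (θ : Th γ) {m : ℕ} (v : Fin m → VV γ) :
    act θ m (PiTensorProduct.tprod ℤ v) = PiTensorProduct.tprod ℤ fun l => res θ (v l) :=
  PiTensorProduct.map_tprod _ _

theorem tt_ext {m : ℕ} {W : Type} [AddCommGroup W] {f g : TT γ m →ₗ[ℤ] W}
    (h : ∀ v, f (PiTensorProduct.tprod ℤ v) = g (PiTensorProduct.tprod ℤ v)) : f = g :=
  PiTensorProduct.ext (MultilinearMap.ext h)

/-- the diagonal action as a representation -/
noncomputable def R0 (γ : I → Γ) (m : ℕ) : Representation ℤ (Th γ) (TT γ m) where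
  toFun θ := act θ m
  map_one' := tt_ext fun v => by rw [act_tprod]; rfl
  map_mul' θ θ' := tt_ext fun v => by
    rw [Module.End.mul_apply, act_tprod, act_tprod, act_tprod]; rfl

theorem act_mul (θ θ' : Th γ) {m : ℕ} (t : TT γ m) :
    act (θ * θ') m t = act θ m (act θ' m t) := LinearMap.congr_fun ((R0 γ m).map_mul θ θ') t

theorem act_one {m : ℕ} (t : TT γ m) : act (1 : Th γ) m t = t :=
  LinearMap.congr_fun (R0 γ m).map_one t

/-- the action on a finite sum -/
noncomputable def R1 (γ : I → Γ) (m : ℕ) (J : Type) : Representation ℤ (Th γ) (J → TT γ m) where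
  toFun θ := (act θ m).compLeft J
  map_one' := LinearMap.ext fun t => funext fun j => act_one (t j)
  map_mul' θ θ' := LinearMap.ext fun t => funext fun j => act_mul θ θ' (t j)

theorem tm_bb (f : (I → QQ Γ) →ₗ[QQ Γ] (I' → QQ Γ)) (hf : ∀ x, del γ' (f x) = del γ x)
    {m : ℕ} (Δ : Subgroup Γ) (n : ℕ) : bb γ m Δ n ≤ (bb γ' m Δ n).comap (tm f hf m) := by
  refine Submodule.span_le.2 ?_
  rintro t (⟨s, rfl⟩ | ⟨v, l, δ, hδ, rfl⟩)
  · exact Submodule.subset_span (Or.inl ⟨tm f hf m s, map_nsmul _ _ _⟩)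
  · refine Submodule.subset_span (Or.inr ⟨fun l => rv f hf (v l), l, δ, hδ, ?_⟩)
    rw [tm_tprod]
    congr 1
    funext k
    rw [Function.apply_update fun _ x => rv f hf x, map_smul]

end Maps

section Core

variable {Γ I : Type} [Group Γ] [Fintype I] [DecidableEq I] {γ : I → Γ}

theorem pj_map {X Y : Type} [AddCommGroup X] [AddCommGroup Y] (ρ : Representation ℤ (Th γ) X)
    (ρ' : Representation ℤ (Th γ) Y) (φ : X →ₗ[ℤ] Y) (h : ∀ θ x, φ (ρ θ x) = ρ' θ (φ x))
    (E : Finset I) (x : X) : φ (pj ρ E x) = pj ρ' E (φ x) := by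
  rw [pj, pj, LinearMap.sum_apply, LinearMap.sum_apply, map_sum]
  refine Finset.sum_congr rfl fun S _ => ?_
  rw [LinearMap.smul_apply, LinearMap.smul_apply, map_smul, h]

theorem span_fix {E : Finset I} (hE : E ⊆ nw γ) (a₀ : I) :
    Submodule.span ℤ (Set.range fun p : {p : VV γ × I //
      ∀ i ∈ E, i ≠ p.2 → res (kil γ {i}) p.1 = p.1} => p.1.1) = ⊤ := by
  refine Submodule.eq_top_iff'.2 fun v => ?_
  have hb : ∀ i : E, bas Γ i.1 ∈ VV γ := fun i => del_bas_nw (hE i.2)
  have h1 : v = res (kil γ E) v + ∑ i : E, (v.1 i.1) • (⟨bas Γ i.1, hb i⟩ : VV γ) := by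
    apply Subtype.ext
    change v.1 = (kil γ E).1 v.1 + _
    rw [kil_apply hE, Submodule.coe_sum]
    simp only [Submodule.coe_smul]
    rw [Finset.sum_coe_sort E fun i => v.1 i • bas Γ i, sub_add_cancel]
  rw [h1]
  refine Submodule.add_mem _ (Submodule.subset_span ⟨⟨(res (kil γ E) v, a₀), fun i hi _ => ?_⟩, rfl⟩)
    (Submodule.sum_mem _ fun i _ => Submodule.subset_span
      ⟨⟨((v.1 i.1) • (⟨bas Γ i.1, hb i⟩ : VV γ), i.1), fun k _ hk => ?_⟩, rfl⟩)
  · apply Subtype.ext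
    change (kil γ {i}).1 ((kil γ E).1 v.1) = (kil γ E).1 v.1
    rw [← th_mul, kil_mul, Finset.union_eq_right.2 (Finset.singleton_subset_iff.2 hi)]
  · apply Subtype.ext
    change (kil γ {k}).1 (v.1 i.1 • bas Γ i.1) = v.1 i.1 • bas Γ i.1
    rw [map_smul, kil_bas_not (by simpa using Ne.symm hk)]

theorem deg_R0 (m : ℕ) : Deg (R0 γ m) (m + 1) := by
  intro E hE hc
  obtain ⟨a₀, -⟩ : E.Nonempty := Finset.card_pos.1 (by omega)
  refine PiTensorProduct.ext (MultilinearMap.ext_of_span_eq_top (fun _ => span_fix hE a₀) fun p => ?_)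
  obtain ⟨i, hi, hn⟩ : ∃ i ∈ E, i ∉ Finset.univ.image fun l => (p l).1.2 :=
    Finset.exists_mem_notMem_of_card_lt_card
      (lt_of_le_of_lt Finset.card_image_le (by simp [hc]))
  refine pj_of_fix (R0 γ m) hi ?_
  change act (kil γ {i}) m _ = _
  rw [act_tprod]
  congr 1
  funext l
  exact (p l).2 i hi fun h => hn (Finset.mem_image.2 ⟨l, Finset.mem_univ _, h.symm⟩)

/-- scale one basis vector -/
noncomputable def sc (γ : I → Γ) (i : nw γ) (δ : Γ) : Th γ :=
  mkTh γ (fun k => if k = i.1 then MonoidAlgebra.of ℤ Γ δ • bas Γ k else bas Γ k) fun k => by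
    split_ifs with h
    · rw [map_smul, h, del_bas_nw i.2, smul_zero]
    · rfl

theorem sc_bas (i : nw γ) (δ : Γ) (k : I) : (sc γ i δ).1 (bas Γ k) =
    if k = i.1 then MonoidAlgebra.of ℤ Γ δ • bas Γ k else bas Γ k := mkTh_bas _ _ _ _

theorem sc_one (i : nw γ) : sc γ i 1 = 1 := th_ext fun k => by
  rw [sc_bas, map_one, one_smul, ite_self, th_one]

theorem sc_mul (i : nw γ) (δ δ' : Γ) : sc γ i (δ * δ') = sc γ i δ' * sc γ i δ :=
  th_ext fun k => by
    rw [th_mul, sc_bas, sc_bas]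
    split_ifs with h
    · rw [map_smul, sc_bas, if_pos h, map_mul, mul_smul]
    · rw [sc_bas, if_neg h]

/-- a finite quotient is killed by some `bb` -/
theorem kill_bb {m : ℕ} (hm : m ≤ (nw γ).card) {X : Type} [AddCommGroup X] [Finite X]
    (ρ : Representation ℤ (Th γ) X) : ∃ (Δ : Subgroup Γ) (n : ℕ), Δ.Normal ∧ Δ.FiniteIndex ∧
      0 < n ∧ ∀ φ : TT γ m →ₗ[ℤ] X, (∀ θ t, φ (act θ m t) = ρ θ (φ t)) →
        bb γ m Δ n ≤ LinearMap.ker φ := by
  obtain ⟨e⟩ : Nonempty (Fin m ↪ nw γ) :=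
    Function.Embedding.nonempty_of_card_le (by simpa using hm)
  let f : Γ →* (Fin m → Module.End ℤ X) :=
    { toFun := fun δ l => ρ (sc γ (e l) δ⁻¹)
      map_one' := funext fun l => by rw [inv_one, sc_one, map_one]; rfl
      map_mul' := fun δ δ' => funext fun l => by rw [mul_inv_rev, sc_mul, map_mul]; rfl }
  have : Finite (Module.End ℤ X) := Finite.of_injective _ DFunLike.coe_injective
  refine ⟨f.toHomUnits.ker, Nat.card X, inferInstance, inferInstance, Nat.card_pos,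
    fun φ hφ => Submodule.span_le.2 ?_⟩
  rintro t (⟨s, rfl⟩ | ⟨v, l, δ, hδ, rfl⟩)
  · change φ _ = 0
    rw [map_nsmul, card_nsmul_eq_zero']
  · have h1 : ρ (sc γ (e l) δ) = 1 := by
      have h2 := congrArg Units.val (MonoidHom.mem_ker.1 (Subgroup.inv_mem _ hδ))
      have h3 : ρ (sc γ (e l) δ⁻¹⁻¹) = 1 := congrFun h2 l
      rwa [inv_inv] at h3
    have he : Function.Injective fun l => (e l).1 := Subtype.val_injective.comp e.injective
    let b : Fin m → VV γ := fun l => ⟨bas Γ (e l).1, del_bas_nw (e l).2⟩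
    let ψ : Th γ := mkTh γ (Function.extend (fun l => (e l).1) (fun l => (v l).1) (bas Γ))
      fun k => by
        by_cases h : ∃ l, (e l).1 = k
        · obtain ⟨l, rfl⟩ := h
          rw [he.extend_apply, del_bas_nw (e l).2]
          exact (v l).2
        · rw [Function.extend_apply' _ _ _ h]
    have h4 : ∀ k, res ψ (b k) = v k := fun k => Subtype.ext (by
      change ψ.1 (bas Γ (e k).1) = _
      rw [mkTh_bas, he.extend_apply])
    have h5 : act (sc γ (e l) δ) m (PiTensorProduct.tprod ℤ b) =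
        PiTensorProduct.tprod ℤ (Function.update b l (MonoidAlgebra.of ℤ Γ δ • b l)) := by
      rw [act_tprod]
      congr 1
      funext k
      apply Subtype.ext
      change (sc γ (e l) δ).1 (bas Γ (e k).1) = _
      rw [sc_bas]
      by_cases h : k = l
      · subst h
        rw [if_pos rfl, Function.update_self]
        rfl
      · rw [if_neg fun h' => h (he h'), Function.update_of_ne h]
    have h6 : PiTensorProduct.tprod ℤ (Function.update v l ((MonoidAlgebra.of ℤ Γ δ - 1) • v l)) =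
        act ψ m (act (sc γ (e l) δ) m (PiTensorProduct.tprod ℤ b)) -
          act ψ m (PiTensorProduct.tprod ℤ b) := by
      have h7 : (MonoidAlgebra.of ℤ Γ δ - 1) • v l = MonoidAlgebra.of ℤ Γ δ • v l - v l :=
        (sub_smul (MonoidAlgebra.of ℤ Γ δ) 1 (v l)).trans (by rw [one_smul])
      rw [h5, act_tprod, act_tprod, h7, MultilinearMap.map_update_sub,
        Function.update_eq_self]
      congr 2
      · funext k
        rw [Function.apply_update fun _ x => res ψ x, map_smul, h4, funext h4]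
      · exact (funext h4).symm
    change φ _ = 0
    rw [h6, map_sub, hφ, hφ, hφ, h1, Module.End.one_apply, sub_self]

theorem core (hN : SN) (hM : RMain) (hV : VN Γ) (hγ : Subgroup.closure (Set.range γ) = ⊤) (m : ℕ)
    (hm : 2 * m + 1 ≤ (nw γ).card) (J : Type) [Fintype J] (L : Submodule ℤ (J → TT γ m))
    (hL : Inv L) (t : J → TT γ m) (ht : t ∉ L) :
    ∃ (Δ : Subgroup Γ) (n : ℕ), Δ.Normal ∧ Δ.FiniteIndex ∧ 0 < n ∧
      t ∉ L ⊔ Submodule.pi Set.univ fun _ : J => bb γ m Δ n := by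
  classical
  obtain ⟨L2, ⟨h1, h2, h3⟩, hmax⟩ := exists_max Inv (hN Γ I γ hV hγ m J)
    {U | Inv U ∧ L ≤ U ∧ t ∉ U} (fun U hU => hU.1) ⟨L, hL, le_rfl, ht⟩
  let ρ := (R1 γ m J).quotient L2 fun θ x hx => h1 θ x hx
  have hq : ∀ θ x, L2.mkQ (R1 γ m J θ x) = ρ θ (L2.mkQ x) := fun θ x => rfl
  have hinv : ∀ U, InvR ρ U → Inv (U.comap L2.mkQ) := fun U hU θ x hx => hU θ _ hx
  have hfin : Finite ((J → TT γ m) ⧸ L2) := by
    refine hM Γ I γ hV hγ (m + 1) (by omega) _ ρ (fun c hc hi => ?_) (fun E hE hc => ?_)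
      (L2.mkQ t) (fun U hU hne => ?_) fun h => h3 ((Submodule.Quotient.mk_eq_zero _).1 h)
    · obtain ⟨n, hn⟩ := hN Γ I γ hV hγ m J (fun n => (c n).comap L2.mkQ)
        (fun a b h => Submodule.comap_mono (hc h)) fun n => hinv _ (hi n)
      exact ⟨n, fun k hk => Submodule.comap_injective_of_surjective L2.mkQ_surjective (hn k hk)⟩
    · refine LinearMap.ext fun x => ?_
      obtain ⟨y, rfl⟩ := L2.mkQ_surjective x
      have h4 : pj (R1 γ m J) E y = 0 := funext fun j => by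
        have h5 := pj_map (R1 γ m J) (R0 γ m) (LinearMap.proj j) (fun _ _ => rfl) E y
        rw [deg_R0 m E hE hc] at h5
        exact h5
      rw [← pj_map (R1 γ m J) ρ L2.mkQ hq, h4, map_zero, LinearMap.zero_apply]
    · by_contra h
      have h4 : L2 ≤ U.comap L2.mkQ := Submodule.le_comap_mkQ _ _
      have h5 := hmax _ ⟨hinv U hU, h2.trans h4, h⟩ h4
      refine hne ((Submodule.eq_bot_iff _).2 fun x hx => ?_)
      obtain ⟨y, rfl⟩ := L2.mkQ_surjective x
      have h6 : y ∈ U.comap L2.mkQ := hx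
      rw [h5] at h6
      exact (Submodule.Quotient.mk_eq_zero _).2 h6
  obtain ⟨Δ, n, h4, h5, h6, h7⟩ := kill_bb (m := m) (by omega) ρ
  refine ⟨Δ, n, h4, h5, h6, fun h => h3 ((sup_le h2 fun y hy => ?_) h)⟩
  rw [← Finset.univ_sum_single y]
  refine L2.sum_mem fun j _ => (Submodule.Quotient.mk_eq_zero _).1 ?_
  refine h7 (L2.mkQ.comp (LinearMap.single ℤ (fun _ : J => TT γ m) j)) (fun θ s => ?_)
    (hy j (Set.mem_univ j))
  rw [LinearMap.comp_apply, LinearMap.comp_apply, ← hq]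
  congr 1
  funext k
  exact (Pi.apply_single (fun _ => act θ m) (fun _ => map_zero _) j s k).symm

end Core

section Ext

variable {Γ I K : Type} [Group Γ] [Fintype I] [Fintype K]

/-- extension by zero -/
noncomputable def io (Γ I K : Type) [Group Γ] : (I → QQ Γ) →ₗ[QQ Γ] (I ⊕ K → QQ Γ) where
  toFun x := Sum.elim x 0
  map_add' x y := funext fun i => by cases i <;> simp
  map_smul' c x := funext fun i => by cases i <;> simp

/-- restriction -/
noncomputable def rs (Γ I K : Type) [Group Γ] : (I ⊕ K → QQ Γ) →ₗ[QQ Γ] (I → QQ Γ) :=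
  LinearMap.funLeft (QQ Γ) (QQ Γ) Sum.inl

theorem del_rs (γ : I → Γ) (y : I ⊕ K → QQ Γ) :
    del γ (rs Γ I K y) = del (Sum.elim γ fun _ : K => (1 : Γ)) y := by
  simp only [del, rs, Fintype.linearCombination_apply, Fintype.sum_sum_type, Sum.elim_inl,
    Sum.elim_inr, map_one, sub_self, smul_zero, Finset.sum_const_zero, add_zero,
    LinearMap.funLeft_apply]

theorem del_io (γ : I → Γ) (x : I → QQ Γ) :
    del (Sum.elim γ fun _ : K => (1 : Γ)) (io Γ I K x) = del γ x :=
  (del_rs γ _).symm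

end Ext

end RRetA

open RRetA in
theorem rRet : SN → RMain → SHaus := by
  classical
  intro hN hM Γ I _ _ γ hV hγ m J _ L hL t ht
  let K := Fin (2 * m + 1)
  let γ1 : I ⊕ K → Γ := Sum.elim γ fun _ => 1
  have h1 : Subgroup.closure (Set.range γ1) = ⊤ := by
    refine top_le_iff.1 (hγ.ge.trans (Subgroup.closure_mono ?_))
    rintro _ ⟨i, rfl⟩
    exact ⟨Sum.inl i, rfl⟩
  have h2 : 2 * m + 1 ≤ (nw γ1).card := by
    have h3 := Finset.card_le_card_of_injOn (s := (Finset.univ : Finset K)) (t := nw γ1) Sum.inr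
      (fun k _ => Finset.mem_coe.2 (mem_nw.2 rfl)) Sum.inr_injective.injOn
    simpa [K] using h3
  let ι : TT γ m →ₗ[ℤ] TT γ1 m := tm (io Γ I K) (del_io γ) m
  let r : TT γ1 m →ₗ[ℤ] TT γ m := tm (rs Γ I K) (del_rs γ) m
  let cj : Th γ1 → Th γ := fun θ => ⟨(rs Γ I K).comp (θ.1.comp (io Γ I K)), fun x =>
    (del_rs γ _).trans ((θ.2 _).trans (del_io γ x))⟩
  have h3 : ∀ θ s, r (act θ m (ι s)) = act (cj θ) m s := fun θ s =>
    LinearMap.congr_fun (tt_ext (f := r.comp ((act θ m).comp ι)) (g := act (cj θ) m) fun v => by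
      rw [LinearMap.comp_apply, LinearMap.comp_apply, tm_tprod, act_tprod, tm_tprod, act_tprod]
      rfl) s
  let L1 : Submodule ℤ (J → TT γ1 m) := ⨅ θ, L.comap ((r.comp (act θ m)).compLeft J)
  have h4 : ∀ y, y ∈ L1 ↔ ∀ θ, (fun j => r (act θ m (y j))) ∈ L := fun y => Submodule.mem_iInf _
  obtain ⟨Δ, n, h5, h6, h7, h8⟩ := core hN hM hV h1 m h2 J L1 (fun θ y hy => (h4 _).2 fun θ' => by
      have h5 := (h4 y).1 hy (θ' * θ)
      simp only [act_mul] at h5
      exact h5) (ι.compLeft J t) fun h => ht (by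
      have h5 := (h4 _).1 h 1
      have h6 : cj 1 = 1 := rfl
      have h7 : (fun j => r (act 1 m (ι.compLeft J t j))) = t := funext fun j =>
        (h3 1 (t j)).trans (by rw [h6, act_one])
      rwa [h7] at h5)
  refine ⟨Δ, n, h5, h6, h7, fun h => h8 ?_⟩
  obtain ⟨a, ha, b, hb, rfl⟩ := Submodule.mem_sup.1 h
  rw [map_add]
  refine Submodule.add_mem_sup ((h4 _).2 fun θ => ?_) fun j hj => tm_bb _ _ Δ n (hb j hj)
  have h9 : (fun j => r (act θ m (ι.compLeft J a j))) = fun j => act (cj θ) m (a j) :=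
    funext fun j => h3 θ (a j)
  rw [h9]
  exact hL _ a ha

end Pool.Agent.MP_5c28a4_al.H89S.HausA
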